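import Pool.Agent.Helper24.PP.Light

set_option autoImplicit false

/-!
MP_120218_co: groups of elements, affine maps, few prime factors.
-/

open Finset

namespace Pool.Agent.Helper24.PP

open Pool.Agent.Helper5

/-- the maximum of the numbers of `k`-fold sums and products -/
noncomputable def mx (k : ℕ) (A : Finset ℤ) : ℝ :=
  max (((Fintype.piFinset (fun _ : Fin k => A)).image
      (fun f : Fin k → ℤ => ∑ i, f i)).card : ℝ)
    (((Fintype.piFinset (fun _ : Fin k => A)).image
      (fun f : Fin k → ℤ => ∏ i, f i)).card : ℝ)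

theorem one_le_mx {k : ℕ} {A : Finset ℤ} (hA : A.Nonempty) : 1 ≤ mx k A := by
  obtain ⟨a, ha⟩ := hA
  have h1 : ((Fintype.piFinset (fun _ : Fin k => A)).image
      (fun f : Fin k → ℤ => ∑ i, f i)).Nonempty :=
    ⟨_, mem_image_of_mem _ (Fintype.mem_piFinset.2 (fun _ => ha) :
      (fun _ : Fin k => a) ∈ Fintype.piFinset (fun _ : Fin k => A))⟩
  have h2 := card_pos.2 h1
  refine le_trans ?_ (le_max_left _ _)
  exact_mod_cast h2

/-- small sets -/
theorem small_case {k : ℕ} {ε L c : ℝ} {A : Finset ℤ} (hA : A.Nonempty) (hε : 0 < ε)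
    (hc : c ≤ Real.exp (-(k * L))) (hsm : Real.log A.card ≤ L) :
    c * (A.card : ℝ) ^ ((k : ℝ) - ε) ≤ mx k A := by
  refine le_trans ?_ (one_le_mx hA)
  have hn1 : (1 : ℝ) ≤ A.card := by exact_mod_cast card_pos.mpr hA
  have hnpos : (0 : ℝ) < A.card := by linarith
  have hL0 : 0 ≤ Real.log (A.card : ℝ) := Real.log_nonneg hn1
  have hk0 : (0 : ℝ) ≤ k := Nat.cast_nonneg _
  have h1 : (A.card : ℝ) ^ ((k : ℝ) - ε) ≤ Real.exp (k * L) := by
    rw [Real.rpow_def_of_pos hnpos]
    apply Real.exp_le_exp.2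
    nlinarith
  calc c * (A.card : ℝ) ^ ((k : ℝ) - ε) ≤ Real.exp (-(k * L)) * Real.exp (k * L) := by
        apply mul_le_mul hc h1 (Real.rpow_nonneg hnpos.le _) (Real.exp_pos _).le
    _ = 1 := by rw [← Real.exp_add]; simp

/-- few popular primes, with a small constant -/
theorem few_pop (k : ℕ) (hk : 1 ≤ k) (ε : ℝ) (hε : 0 < ε) : ∃ c : ℝ, 0 < c ∧ c ≤ 1 / 2 ∧
    ∀ A B : Finset ℤ, A.Nonempty → B ⊆ A → (0 : ℤ) ∉ B →
      (A.card : ℝ) ^ (1 - c) ≤ (B.card : ℝ) →
      ∀ (g : ℤ) (T : Finset ℕ), (T.card : ℝ) ≤ c * Real.log (A.card : ℝ) →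
      (∀ p : ℕ, p.Prime → p ∉ T → (nd g B p : ℝ) ≤ c * (B.card : ℝ)) →
      c * (A.card : ℝ) ^ ((k : ℝ) - ε) ≤ mx k A := by
  obtain ⟨c₁, hc₁, h⟩ := Pool.Agent.Helper2.Variants.PopularPrimes.primes_case k hk ε hε
  refine ⟨min c₁ (1 / 2), by positivity, min_le_right _ _, ?_⟩
  set c := min c₁ (1 / 2) with hc
  have hcc : c ≤ c₁ := min_le_left _ _
  have hc0 : 0 < c := by rw [hc]; positivity
  clear_value c
  intro A B hA hBA hB0 hcard g T hT hpop
  have hn1 : (1 : ℝ) ≤ A.card := by exact_mod_cast card_pos.mpr hA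
  have hL0 : 0 ≤ Real.log (A.card : ℝ) := Real.log_nonneg hn1
  have h1 := h A B hA hBA hB0
    ((Real.rpow_le_rpow_of_exponent_le hn1 (by linarith)).trans hcard) T
    (hT.trans (mul_le_mul_of_nonneg_right hcc hL0)) (fun p hp hpT =>
      ⟨padicValInt p g, (hpop p hp hpT).trans
        (mul_le_mul_of_nonneg_right hcc (Nat.cast_nonneg _))⟩)
  refine le_trans ?_ h1
  exact mul_le_mul_of_nonneg_right hcc (Real.rpow_nonneg (by linarith) _)

/-- the primes at which `a` and `g` have different valuations -/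
def act (g a : ℤ) : Finset ℕ :=
  (g.natAbs.primeFactors ∪ a.natAbs.primeFactors).filter
    (fun p => padicValInt p a ≠ padicValInt p g)

theorem val_zero {p : ℕ} {b : ℤ} (hp : p.Prime) (hb : p ∉ b.natAbs.primeFactors) :
    padicValInt p b = 0 := by
  rw [padicValInt]
  rcases eq_or_ne b.natAbs 0 with h | h
  · rw [h]
    simp
  · apply padicValNat.eq_zero_of_not_dvd
    intro hd
    exact hb (Nat.mem_primeFactors.2 ⟨hp, hd, h⟩)

theorem mem_act {g a : ℤ} {p : ℕ} (hp : p.Prime) (h : padicValInt p a ≠ padicValInt p g) :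
    p ∈ act g a := by
  refine mem_filter.2 ⟨?_, h⟩
  by_contra hm
  apply h
  rw [val_zero hp (fun h' => hm (mem_union_right _ h')),
    val_zero hp (fun h' => hm (mem_union_left _ h'))]

theorem prime_of_mem_act {g a : ℤ} {p : ℕ} (h : p ∈ act g a) : p.Prime := by
  rcases mem_union.1 (mem_filter.1 h).1 with h' | h' <;> exact Nat.prime_of_mem_primeFactors h'

theorem act_one {a : ℤ} : act 1 a ⊆ a.natAbs.primeFactors := by
  intro p hp
  have h := mem_filter.1 hp
  rcases mem_union.1 h.1 with h' | h'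
  · simp at h'
  · exact h'

/-- the double count -/
theorem sum_nd_le (g : ℤ) (B : Finset ℤ) (P : Finset ℕ) (hP : ∀ p ∈ P, p.Prime) :
    ∑ p ∈ P, (nd g B p : ℝ) ≤ ∑ a ∈ B, ((act g a).card : ℝ) := by
  classical
  have h1 : ∑ p ∈ P, nd g B p = ∑ a ∈ B, (P.filter (fun p : ℕ =>
      padicValInt p a ≠ padicValInt p g)).card := by
    unfold nd
    simp only [card_filter]
    exact sum_comm
  have h2 : ∑ a ∈ B, (P.filter (fun p : ℕ => padicValInt p a ≠ padicValInt p g)).card ≤
      ∑ a ∈ B, (act g a).card := by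
    apply sum_le_sum
    intro a _
    apply card_le_card
    intro p hp
    exact mem_act (hP p (mem_filter.1 hp).1) (mem_filter.1 hp).2
  have h3 : ∑ p ∈ P, nd g B p ≤ ∑ a ∈ B, (act g a).card := h1.le.trans h2
  exact_mod_cast h3

/-- **Few prime factors.** -/
theorem few (k : ℕ) (hk : 1 ≤ k) (ε : ℝ) (hε : 0 < ε) : ∃ c : ℝ, 0 < c ∧
    ∀ A : Finset ℤ, A.Nonempty → ∀ g : ℤ,
      ∑ a ∈ A.erase 0, ((act g a).card : ℝ) ≤ c * (A.card * Real.log A.card) →
      c * (A.card : ℝ) ^ ((k : ℝ) - ε) ≤ mx k A := by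
  classical
  obtain ⟨c₀, hc₀, hc₀h, hfew⟩ := few_pop k hk ε hε
  set L₂ : ℝ := Real.log 2 / c₀ with hL₂
  have hlog2 : 0 < Real.log 2 := Real.log_pos (by norm_num)
  refine ⟨min (c₀ ^ 2 / 2) (Real.exp (-(k * L₂))), by positivity, ?_⟩
  set c : ℝ := min (c₀ ^ 2 / 2) (Real.exp (-(k * L₂))) with hc
  have hc1 : c ≤ c₀ ^ 2 / 2 := min_le_left _ _
  have hc2 : c ≤ Real.exp (-(k * L₂)) := min_le_right _ _
  have hcpos : 0 < c := by rw [hc]; positivity
  clear_value c
  intro A hA g hsum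
  have hn1 : (1 : ℝ) ≤ A.card := by exact_mod_cast card_pos.mpr hA
  have hn0 : (0 : ℝ) < A.card := by linarith
  have hL0 : 0 ≤ Real.log (A.card : ℝ) := Real.log_nonneg hn1
  rcases le_or_gt (Real.log (A.card : ℝ)) L₂ with hsm | hbig
  · exact small_case hA hε hc2 hsm
  have h2 : 2 ≤ (A.card : ℝ) ^ c₀ := by
    rw [Real.rpow_def_of_pos hn0]
    calc (2 : ℝ) = Real.exp (Real.log 2) := (Real.exp_log (by norm_num)).symm
      _ ≤ Real.exp (Real.log A.card * c₀) := by
        apply Real.exp_le_exp.2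
        have := (div_lt_iff₀ hc₀).1 hbig
        linarith
  have h2' : (2 : ℝ) ≤ A.card := by
    refine h2.trans ?_
    calc (A.card : ℝ) ^ c₀ ≤ (A.card : ℝ) ^ (1 : ℝ) :=
          Real.rpow_le_rpow_of_exponent_le hn1 (by linarith)
      _ = A.card := Real.rpow_one _
  set B := A.erase 0 with hB
  have hBc : (A.card : ℝ) / 2 ≤ B.card := by
    have h3 : A.card ≤ B.card + 1 := by
      rw [hB]
      have := pred_card_le_card_erase (s := A) (a := (0 : ℤ))
      omega
    have h4 : (A.card : ℝ) ≤ B.card + 1 := by exact_mod_cast h3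
    linarith
  have hB0 : (0 : ℝ) < B.card := by linarith
  have hcard : (A.card : ℝ) ^ (1 - c₀) ≤ (B.card : ℝ) := by
    refine le_trans ?_ hBc
    rw [Real.rpow_sub hn0, Real.rpow_one]
    exact div_le_div_of_nonneg_left hn0.le (by norm_num) h2
  have hT : ((popP g (1 / c₀) B).card : ℝ) ≤ c₀ * Real.log A.card := by
    have h5 : ((popP g (1 / c₀) B).card : ℝ) * B.card ≤
        1 / c₀ * ∑ p ∈ popP g (1 / c₀) B, (nd g B p : ℝ) := by
      rw [mul_sum]
      calc ((popP g (1 / c₀) B).card : ℝ) * B.card =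
            ∑ p ∈ popP g (1 / c₀) B, (B.card : ℝ) := by rw [sum_const, nsmul_eq_mul]
        _ ≤ _ := sum_le_sum popP_pop
    have h6 : ((popP g (1 / c₀) B).card : ℝ) * B.card ≤
        1 / c₀ * (c * (A.card * Real.log A.card)) :=
      h5.trans (mul_le_mul_of_nonneg_left ((sum_nd_le g B _ popP_prime).trans hsum)
        (by positivity))
    have h7 : 1 / c₀ * (c * (A.card * Real.log A.card)) ≤
        (c₀ * Real.log A.card) * B.card := by
      have h8 : 1 / c₀ * c ≤ c₀ / 2 := by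
        rw [one_div, inv_mul_le_iff₀ hc₀]
        nlinarith
      calc 1 / c₀ * (c * (A.card * Real.log A.card)) =
            (1 / c₀ * c) * (A.card * Real.log A.card) := by ring
        _ ≤ (c₀ / 2) * (A.card * Real.log A.card) :=
            mul_le_mul_of_nonneg_right h8 (by positivity)
        _ = (c₀ * Real.log A.card) * (A.card / 2) := by ring
        _ ≤ (c₀ * Real.log A.card) * B.card :=
            mul_le_mul_of_nonneg_left hBc (by positivity)
    exact le_of_mul_le_mul_right (h6.trans h7) hB0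
  have key := hfew A B hA (erase_subset _ _) (notMem_erase _ _) hcard g _ hT
    (fun p hp hpT => by
      have := unpop_popP (C := 1 / c₀) (by positivity) hp hpT
      rwa [one_div_one_div] at this)
  refine le_trans ?_ key
  have h9 : c ≤ c₀ := by nlinarith
  exact mul_le_mul_of_nonneg_right h9 (Real.rpow_nonneg hn0.le _)

end Pool.Agent.Helper24.PP
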