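import Pool.Agent.Helper24.PP.Few

set_option autoImplicit false

/-!
MP_120218_co: every set; groups of elements and affine maps.
-/

open Finset

namespace Pool.Agent.Helper24.PP

/-- **The structure of the exceptions.** -/
theorem groups (k : ℕ) (hk : 1 ≤ k) (ε : ℝ) (hε : 0 < ε) : ∃ M : ℕ, ∀ j : ℕ, 2 ≤ j →
    ∃ c : ℝ, 0 < c ∧ ∀ A : Finset ℤ, A.Nonempty → ∀ g : ℤ,
      c * (A.card : ℝ) ^ ((k : ℝ) - ε) ≤ mx k A ∨
      ∃ E ⊆ A, (E.card : ℝ) ≤ (A.card : ℝ) ^ (1 - c) ∧
        (∀ a ∈ A \ E, a ≠ 0 ∧ c * Real.log A.card < ((act g a).card : ℝ)) ∧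
        ∀ S ⊆ A \ E, M * j ≤ S.card → Rich g (c * Real.log A.card) j S := by
  classical
  obtain ⟨c₀, hc₀, hc₀h, hfew⟩ := few_pop k hk ε hε
  set M : ℕ := ⌈2 * (1 / c₀)⌉₊ with hM
  have hM1 : 2 * (1 / c₀) ≤ M := Nat.le_ceil _
  have hMpos : 1 ≤ M := Nat.ceil_pos.2 (by positivity)
  clear_value M
  refine ⟨M, fun j hj => ?_⟩
  set B : ℝ := ((M * j).choose j : ℝ) with hB
  have hB1 : 1 ≤ B := by
    rw [hB]
    have : 0 < (M * j).choose j := Nat.choose_pos (by nlinarith)
    exact_mod_cast this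
  clear_value B
  set L₂ : ℝ := 2 * Real.log (2 + M * j) / c₀ with hL₂
  have hc₀B : 0 < c₀ ^ 2 / (2 * B) := by positivity
  refine ⟨min (c₀ / 2) (min (c₀ ^ 2 / (2 * B)) (Real.exp (-(k * L₂)))), by positivity, ?_⟩
  set c : ℝ := min (c₀ / 2) (min (c₀ ^ 2 / (2 * B)) (Real.exp (-(k * L₂)))) with hc
  have hc1 : c ≤ c₀ / 2 := min_le_left _ _
  have hc2 : c ≤ c₀ ^ 2 / (2 * B) := (min_le_right _ _).trans (min_le_left _ _)
  have hc3 : c ≤ Real.exp (-(k * L₂)) := (min_le_right _ _).trans (min_le_right _ _)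
  have hcpos : 0 < c := by rw [hc]; positivity
  clear_value c
  intro A hA g
  have hn1 : (1 : ℝ) ≤ A.card := by exact_mod_cast card_pos.mpr hA
  have hn0 : (0 : ℝ) < A.card := by linarith
  have hL0 : 0 ≤ Real.log (A.card : ℝ) := Real.log_nonneg hn1
  rcases le_or_gt (Real.log (A.card : ℝ)) L₂ with hsm | hbig
  · exact Or.inl (small_case hA hε hc3 hsm)
  set r : ℝ := c * Real.log A.card with hr
  have hr0 : 0 ≤ r := by positivity
  obtain ⟨U, hUA, hUl, hUmax⟩ := exists_maxLight (g := g) (r := r) (A.erase 0) hMpos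
    (show 1 ≤ j by omega)
  rw [← hB] at hUl
  rcases le_or_gt ((A.card : ℝ) ^ (1 - c₀)) (U.card : ℝ) with hUc | hUc
  · -- a large light set
    left
    have hUne : U.Nonempty := by
      rw [← card_pos]
      have : (0 : ℝ) < U.card := lt_of_lt_of_le (Real.rpow_pos_of_pos hn0 _) hUc
      exact_mod_cast this
    have hcount := pop_count (C := 1 / c₀) (by positivity) hM1 hUl hUne (popP g (1 / c₀) U)
      popP_prime popP_pop
    have hT : ((popP g (1 / c₀) U).card : ℝ) ≤ c₀ * Real.log A.card := by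
      refine hcount.trans ?_
      have h1 : B * c ≤ c₀ ^ 2 / 2 := by
        calc B * c ≤ B * (c₀ ^ 2 / (2 * B)) := mul_le_mul_of_nonneg_left hc2 (by linarith)
          _ = c₀ ^ 2 / 2 := by field_simp
      have h2 : 2 * (1 / c₀) * (B * r) = 2 * (1 / c₀) * (B * c) * Real.log A.card := by
        rw [hr]; ring
      rw [h2]
      apply mul_le_mul_of_nonneg_right _ hL0
      calc 2 * (1 / c₀) * (B * c) ≤ 2 * (1 / c₀) * (c₀ ^ 2 / 2) :=
            mul_le_mul_of_nonneg_left h1 (by positivity)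
        _ = c₀ := by field_simp
    have h0 : (0 : ℤ) ∉ U := fun h => notMem_erase _ _ (hUA h)
    have key := hfew A U hA (hUA.trans (erase_subset _ _)) h0 hUc g _ hT
      (fun p hp hpT => by
        have := unpop_popP (C := 1 / c₀) (by positivity) hp hpT
        rwa [one_div_one_div] at this)
    refine le_trans ?_ key
    exact mul_le_mul_of_nonneg_right (by linarith) (Real.rpow_nonneg hn0.le _)
  · right
    -- the elements with few active primes
    set A₀ := (A.erase 0 \ U).filter (fun a => ((act g a).card : ℝ) ≤ r) with hA₀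
    have hA₀c : A₀.card < M * j := by
      by_contra hlt
      push Not at hlt
      obtain ⟨T, hT, hTj, Q, hQ, hlt'⟩ := hUmax A₀ (filter_subset _ _) hlt
      obtain ⟨a, ha⟩ : T.Nonempty := by
        rw [← card_pos]
        omega
      have h1 := (mem_filter.1 (hT ha)).2
      have h2 : Q ⊆ act g a := fun p hp => mem_act (hQ p hp).1 ((hQ p hp).2 a ha)
      have h3 : (Q.card : ℝ) ≤ (act g a).card := by exact_mod_cast card_le_card h2
      linarith
    set E := (U ∪ A₀) ∪ (A.filter (fun a => a = 0)) with hE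
    have hA₀A : A₀ ⊆ A.erase 0 := (filter_subset _ _).trans sdiff_subset
    have hsub : A \ E ⊆ A.erase 0 \ U := by
      intro a ha
      have ha' := mem_sdiff.1 ha
      have hne : a ≠ 0 := by
        intro h
        apply ha'.2
        rw [hE]
        exact mem_union_right _ (mem_filter.2 ⟨ha'.1, h⟩)
      refine mem_sdiff.2 ⟨mem_erase.2 ⟨hne, ha'.1⟩, fun h => ha'.2 ?_⟩
      rw [hE]
      exact mem_union_left _ (mem_union_left _ h)
    refine ⟨E, ?_, ?_, ?_, ?_⟩
    · rw [hE]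
      exact union_subset (union_subset (hUA.trans (erase_subset _ _))
        (hA₀A.trans (erase_subset _ _))) (filter_subset _ _)
    · have h1 : E.card ≤ U.card + A₀.card + 1 := by
        rw [hE]
        refine (card_union_le _ _).trans ?_
        have h2 : (A.filter (fun a => a = 0)).card ≤ 1 := by
          rw [card_le_one]
          intro x hx y hy
          rw [(mem_filter.1 hx).2, (mem_filter.1 hy).2]
        have h3 := card_union_le U A₀
        omega
      have h2 : (E.card : ℝ) ≤ (A.card : ℝ) ^ (1 - c₀) + M * j + 1 := by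
        have h3 : (E.card : ℝ) ≤ U.card + A₀.card + 1 := by exact_mod_cast h1
        have h4 : (A₀.card : ℝ) ≤ M * j := by exact_mod_cast hA₀c.le
        linarith
      have h5 : (1 : ℝ) ≤ (A.card : ℝ) ^ (1 - c₀) := Real.one_le_rpow hn1 (by linarith)
      have hMj : (0 : ℝ) ≤ (M : ℝ) * j := by positivity
      have h6 : (A.card : ℝ) ^ (1 - c₀) + M * j + 1 ≤ (2 + M * j) * (A.card : ℝ) ^ (1 - c₀) := by
        nlinarith
      have h7 : (2 + (M : ℝ) * j) ≤ (A.card : ℝ) ^ (c₀ / 2) := by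
        rw [Real.rpow_def_of_pos hn0]
        calc (2 + (M : ℝ) * j) = Real.exp (Real.log (2 + M * j)) :=
              (Real.exp_log (by positivity)).symm
          _ ≤ Real.exp (Real.log A.card * (c₀ / 2)) := by
              apply Real.exp_le_exp.2
              have := (div_lt_iff₀ hc₀).1 hbig
              linarith
      have h8 : (2 + (M : ℝ) * j) * (A.card : ℝ) ^ (1 - c₀) ≤ (A.card : ℝ) ^ (1 - c) := by
        calc (2 + (M : ℝ) * j) * (A.card : ℝ) ^ (1 - c₀)
            ≤ (A.card : ℝ) ^ (c₀ / 2) * (A.card : ℝ) ^ (1 - c₀) :=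
              mul_le_mul_of_nonneg_right h7 (Real.rpow_nonneg hn0.le _)
          _ = (A.card : ℝ) ^ (c₀ / 2 + (1 - c₀)) := (Real.rpow_add hn0 _ _).symm
          _ ≤ (A.card : ℝ) ^ (1 - c) :=
              Real.rpow_le_rpow_of_exponent_le hn1 (by linarith)
      linarith
    · intro a ha
      have ha' := hsub ha
      refine ⟨(mem_erase.1 (mem_sdiff.1 ha').1).1, ?_⟩
      by_contra hle
      push Not at hle
      apply (mem_sdiff.1 ha).2
      rw [hE]
      exact mem_union_left _ (mem_union_right _ (mem_filter.2 ⟨ha', hle⟩))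
    · intro S hS hMS
      exact hUmax S (hS.trans hsub) hMS

/-- affine maps -/
theorem affine_maps {r : ℝ} {n j : ℕ} (hj : 2 ≤ j) {F : Finset ℤ}
    (hF : ∀ a ∈ F, a ≠ 0 ∧ r < ((act 1 a).card : ℝ))
    (hrich : ∀ S ⊆ F, n ≤ S.card → Rich 1 r j S) (X : Finset (ℤ × ℤ × ℤ))
    (hX : ∀ x ∈ X, x.1 ≠ 0 ∧ x.2.1 ≠ 0)
    (hXX : ∀ x ∈ X, ∀ x' ∈ X, x ≠ x' → x.1 * x'.2.2 - x'.1 * x.2.2 ≠ 0 ∧
      (((x.1 * x'.2.2 - x'.1 * x.2.2).natAbs.primeFactors.card : ℕ) : ℝ) ≤ r) (y : ℚ) :
    ((F ×ˢ X).filter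
      (fun z => ((z.2.2.1 : ℚ) * z.1 + z.2.2.2) / z.2.1 = y)).card < n := by
  classical
  by_contra hlt
  push Not at hlt
  set Z := (F ×ˢ X).filter (fun z => ((z.2.2.1 : ℚ) * z.1 + z.2.2.2) / z.2.1 = y) with hZ
  have hZmem : ∀ z ∈ Z, z.1 ∈ F ∧ z.2 ∈ X ∧
      ((z.2.2.1 : ℚ) * z.1 + z.2.2.2) = z.2.1 * y := by
    intro z hz
    have h1 := mem_filter.1 hz
    have h2 := mem_product.1 h1.1
    refine ⟨h2.1, h2.2, ?_⟩
    have h3 : (z.2.1 : ℚ) ≠ 0 := by exact_mod_cast (hX _ h2.2).1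
    have h4 := h1.2
    field_simp at h4
    linarith
  -- the determinants
  have hdet : ∀ z ∈ Z, ∀ z' ∈ Z, z.2.1 * z'.2.2.2 - z'.2.1 * z.2.2.2 =
      z'.2.1 * z.2.2.1 * z.1 - z.2.1 * z'.2.2.1 * z'.1 := by
    intro z hz z' hz'
    have h1 := (hZmem z hz).2.2
    have h2 := (hZmem z' hz').2.2
    have h3 : ((z.2.1 * z'.2.2.2 - z'.2.1 * z.2.2.2 : ℤ) : ℚ) =
        ((z'.2.1 * z.2.2.1 * z.1 - z.2.1 * z'.2.2.1 * z'.1 : ℤ) : ℚ) := by
      push_cast
      have h4 : (z'.2.2.2 : ℚ) = z'.2.1 * y - z'.2.2.1 * z'.1 := by linarith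
      have h5 : (z.2.2.2 : ℚ) = z.2.1 * y - z.2.2.1 * z.1 := by linarith
      rw [h4, h5]
      ring
    exact_mod_cast h3
  -- the first projection is injective
  have hinj : Set.InjOn (fun z : ℤ × ℤ × ℤ × ℤ => z.1) (Z : Set (ℤ × ℤ × ℤ × ℤ)) := by
    intro z hz z' hz' he
    simp only at he
    by_contra hne
    have hz1 := hZmem z hz
    have hz2 := hZmem z' hz'
    have hxx : z.2 ≠ z'.2 := fun h => hne (Prod.ext he h)
    have h1 := hXX _ hz1.2.1 _ hz2.2.1 hxx
    have h2 := hdet z hz z' hz'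
    have h3 : z.1 ∣ z.2.1 * z'.2.2.2 - z'.2.1 * z.2.2.2 := by
      rw [h2, ← he, ← sub_mul]
      exact dvd_mul_left _ _
    have h4 : (act 1 z.1).card ≤ (z.2.1 * z'.2.2.2 - z'.2.1 * z.2.2.2).natAbs.primeFactors.card := by
      apply card_le_card
      refine act_one.trans ?_
      apply Nat.primeFactors_mono (Int.natAbs_dvd_natAbs.2 h3)
      exact Int.natAbs_ne_zero.2 h1.1
    have h5 := (hF _ hz1.1).2
    have h6 : ((act 1 z.1).card : ℝ) ≤
        ((z.2.1 * z'.2.2.2 - z'.2.1 * z.2.2.2).natAbs.primeFactors.card : ℝ) := by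
      exact_mod_cast h4
    linarith [h1.2]
  set S := Z.image (fun z => z.1) with hS
  have hSF : S ⊆ F := by
    intro a ha
    obtain ⟨z, hz, rfl⟩ := mem_image.1 ha
    exact (hZmem z hz).1
  have hSc : n ≤ S.card := by
    rw [hS, card_image_of_injOn hinj]
    exact hlt
  obtain ⟨T, hT, hTj, Q, hQ, hQr⟩ := hrich S hSF hSc
  obtain ⟨a, ha, a', ha', hne⟩ := one_lt_card.1 (show 1 < T.card by omega)
  obtain ⟨z, hz, hza⟩ := mem_image.1 (hT ha)
  obtain ⟨z', hz', hza'⟩ := mem_image.1 (hT ha')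
  have hz1 := hZmem z hz
  have hz2 := hZmem z' hz'
  have hxx : z.2 ≠ z'.2 := by
    intro h
    apply hne
    have h1 := hz1.2.2
    have h2 := hz2.2.2
    rw [h] at h1
    have h3 : (z'.2.2.1 : ℚ) * z.1 = z'.2.2.1 * z'.1 := by linarith
    have h4 : (z'.2.2.1 : ℚ) ≠ 0 := by exact_mod_cast (hX _ hz2.2.1).2
    have h5 : (z.1 : ℚ) = z'.1 := mul_left_cancel₀ h4 h3
    have h6 : z.1 = z'.1 := by exact_mod_cast h5
    rw [← hza, ← hza', h6]
  have h1 := hXX _ hz1.2.1 _ hz2.2.1 hxx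
  have h2 := hdet z hz z' hz'
  have hdiv : ∀ b : ℤ, ∀ p ∈ Q, b ∈ T → (p : ℤ) ∣ b := by
    intro b p hp hb
    have h3 := (hQ p hp).2 b hb
    have h4 := act_one (mem_act (hQ p hp).1 h3)
    exact Int.natCast_dvd.2 (Nat.dvd_of_mem_primeFactors h4)
  have h3 : Q ⊆ (z.2.1 * z'.2.2.2 - z'.2.1 * z.2.2.2).natAbs.primeFactors := by
    intro p hp
    refine Nat.mem_primeFactors.2 ⟨(hQ p hp).1, ?_, Int.natAbs_ne_zero.2 h1.1⟩
    apply Int.natCast_dvd.1
    rw [h2]
    apply dvd_sub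
    · have h5 := hdiv a p hp ha
      rw [← hza] at h5
      exact Dvd.dvd.mul_left h5 _
    · have h5 := hdiv a' p hp ha'
      rw [← hza'] at h5
      exact Dvd.dvd.mul_left h5 _
  have h4 : (Q.card : ℝ) ≤
      ((z.2.1 * z'.2.2.2 - z'.2.1 * z.2.2.2).natAbs.primeFactors.card : ℝ) := by
    exact_mod_cast card_le_card h3
  linarith [h1.2]

/-- coprime progressions -/
theorem progressions {r : ℝ} {n j : ℕ} (hj : 2 ≤ j) {F : Finset ℤ}
    (hrich : ∀ S ⊆ F, n ≤ S.card → Rich 1 r j S) {b q : ℤ} (hbq : IsCoprime b q)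
    (D : Finset ℤ) (hD : ∀ t ∈ D, ∀ t' ∈ D, t ≠ t' →
      (((t - t').natAbs.primeFactors.card : ℕ) : ℝ) ≤ r) :
    (F.filter (fun a => ∃ t ∈ D, a = b + q * t)).card < n := by
  classical
  by_contra hlt
  push Not at hlt
  obtain ⟨T, hT, hTj, Q, hQ, hQr⟩ := hrich _ (filter_subset _ _) hlt
  obtain ⟨a, ha, a', ha', hne⟩ := one_lt_card.1 (show 1 < T.card by omega)
  obtain ⟨t, ht, hat⟩ := (mem_filter.1 (hT ha)).2
  obtain ⟨t', ht', hat'⟩ := (mem_filter.1 (hT ha')).2
  have htt : t ≠ t' := by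
    intro h
    apply hne
    rw [hat, hat', h]
  have hdiv : ∀ x : ℤ, ∀ p ∈ Q, x ∈ T → (p : ℤ) ∣ x := by
    intro x p hp hx
    have h3 := (hQ p hp).2 x hx
    have h4 := act_one (mem_act (hQ p hp).1 h3)
    exact Int.natCast_dvd.2 (Nat.dvd_of_mem_primeFactors h4)
  have h3 : Q ⊆ (t - t').natAbs.primeFactors := by
    intro p hp
    refine Nat.mem_primeFactors.2 ⟨(hQ p hp).1, ?_, Int.natAbs_ne_zero.2 (sub_ne_zero.2 htt)⟩
    apply Int.natCast_dvd.1
    have h5 := hdiv a p hp ha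
    have h6 := hdiv a' p hp ha'
    have h7 : (p : ℤ) ∣ q * (t - t') := by
      have h8 := dvd_sub h5 h6
      rw [hat, hat'] at h8
      have h9 : b + q * t - (b + q * t') = q * (t - t') := by ring
      rwa [h9] at h8
    have h8 : IsCoprime (p : ℤ) q := by
      have h9 : IsCoprime (b + q * t) q := IsCoprime.add_mul_left_left hbq t
      rw [← hat] at h9
      exact h9.of_isCoprime_of_dvd_left h5
    exact h8.dvd_of_dvd_mul_left h7
  have h4 : (Q.card : ℝ) ≤ ((t - t').natAbs.primeFactors.card : ℝ) := by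
    exact_mod_cast card_le_card h3
  linarith [hD t ht t' ht' htt]

/-- the active primes occur in the fraction `a / g` -/
theorem act_subset_frac {g a : ℤ} (hg : g ≠ 0) (ha : a ≠ 0) :
    ((act g a).card : ℝ) ≤ ((((a : ℚ) / g).num.natAbs.primeFactors.card : ℕ) : ℝ) +
      ((((a : ℚ) / g).den.primeFactors.card : ℕ) : ℝ) := by
  classical
  have hsub : act g a ⊆ ((a : ℚ) / g).num.natAbs.primeFactors ∪
      ((a : ℚ) / g).den.primeFactors := by
    intro p hp
    have hpp := prime_of_mem_act hp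
    haveI : Fact p.Prime := ⟨hpp⟩
    have hne := (mem_filter.1 hp).2
    have hga : ((a : ℚ) / g) ≠ 0 := by
      have h1 : (a : ℚ) ≠ 0 := by exact_mod_cast ha
      have h2 : (g : ℚ) ≠ 0 := by exact_mod_cast hg
      exact div_ne_zero h1 h2
    have hval : padicValRat p ((a : ℚ) / g) = (padicValInt p a : ℤ) - (padicValInt p g : ℤ) := by
      rw [padicValRat.div (by exact_mod_cast ha) (by exact_mod_cast hg),
        padicValRat.of_int, padicValRat.of_int]
    by_contra hm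
    rw [mem_union, not_or] at hm
    have h1 : padicValInt p ((a : ℚ) / g).num = 0 := val_zero hpp hm.1
    have h2 : padicValNat p ((a : ℚ) / g).den = 0 := by
      apply padicValNat.eq_zero_of_not_dvd
      intro hd
      exact hm.2 (Nat.mem_primeFactors.2 ⟨hpp, hd, ((a : ℚ) / g).den_ne_zero⟩)
    rw [padicValRat, h1, h2] at hval
    apply hne
    have h3 : (padicValInt p a : ℤ) = (padicValInt p g : ℤ) := by
      simp at hval
      linarith
    exact_mod_cast h3
  have h1 := (card_le_card hsub).trans (card_union_le _ _)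
  exact_mod_cast h1

end Pool.Agent.Helper24.PP
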