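import Pool.Agent.Helper2.Variants.PopularPrimes

set_option autoImplicit false

/-!
MP_120218_co: from the sets with few popular primes (`primes_case`, helper2) to groups of elements,
affine maps, and sets whose elements have few prime factors.
-/

open Finset

namespace Pool.Agent.Helper24.PP

open Pool.Agent.Helper5

/-- the number of elements of `S` whose valuation at `p` is not that of `g` -/
def nd (g : ℤ) (S : Finset ℤ) (p : ℕ) : ℕ :=
  (S.filter (fun a => padicValInt p a ≠ padicValInt p g)).card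

/-- on average an element of `U` has another valuation than `g` for at most `R + δ |Q|` primes
of `Q`, for all `Q` -/
def Light (g : ℤ) (R δ : ℝ) (U : Finset ℤ) : Prop :=
  ∀ Q : Finset ℕ, (∀ p ∈ Q, p.Prime) → ∑ p ∈ Q, (nd g U p : ℝ) ≤ (U.card : ℝ) * (R + δ * Q.card)

theorem light_empty (g : ℤ) (R δ : ℝ) : Light g R δ ∅ := by
  intro Q _
  simp [nd]

theorem light_union {g : ℤ} {R δ : ℝ} {U G : Finset ℤ} (hd : Disjoint U G) (hU : Light g R δ U)
    (hG : Light g R δ G) : Light g R δ (U ∪ G) := by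
  intro Q hQ
  have h1 : ∀ p : ℕ, nd g (U ∪ G) p = nd g U p + nd g G p := by
    intro p
    unfold nd
    rw [filter_union, card_union_of_disjoint (disjoint_filter_filter hd)]
  have h2 := hU Q hQ
  have h3 := hG Q hQ
  have h4 : ∑ p ∈ Q, (nd g (U ∪ G) p : ℝ) =
      ∑ p ∈ Q, (nd g U p : ℝ) + ∑ p ∈ Q, (nd g G p : ℝ) := by
    rw [← sum_add_distrib]
    apply sum_congr rfl
    intro p _
    rw [h1 p]
    push_cast
    ring
  rw [h4, card_union_of_disjoint hd]
  push_cast
  nlinarith

/-- `j` elements of `S` such that more than `r` primes have another valuation at each of them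
than at `g` -/
def Rich (g : ℤ) (r : ℝ) (j : ℕ) (S : Finset ℤ) : Prop :=
  ∃ T ⊆ S, T.card = j ∧ ∃ Q : Finset ℕ,
    (∀ p ∈ Q, p.Prime ∧ ∀ a ∈ T, padicValInt p a ≠ padicValInt p g) ∧ r < (Q.card : ℝ)

/-- a group of `M j` elements which is not rich is light -/
theorem bad_light {g : ℤ} {r : ℝ} {M j : ℕ} {G : Finset ℤ} (hM : 1 ≤ M)
    (hG : G.card = M * j) (hbad : ¬ Rich g r j G) :
    Light g (((M * j).choose j : ℝ) * r) (1 / (M : ℝ)) G := by
  classical
  intro Q hQ
  have hM0 : (0 : ℝ) < M := by exact_mod_cast hM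
  set Q₁ := Q.filter (fun p => j ≤ nd g G p) with hQ₁
  -- the number of the primes active at `j` elements
  have hcard : (Q₁.card : ℝ) ≤ ((M * j).choose j : ℝ) * r := by
    have hsub : Q₁ ⊆ (powersetCard j G).biUnion
        (fun T => Q.filter (fun p : ℕ => ∀ a ∈ T, padicValInt p a ≠ padicValInt p g)) := by
      intro p hp
      have hp' := mem_filter.1 hp
      obtain ⟨T, hT, hTj⟩ := exists_subset_card_eq hp'.2
      refine mem_biUnion.2 ⟨T, mem_powersetCard.2 ⟨hT.trans (filter_subset _ _), hTj⟩, ?_⟩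
      exact mem_filter.2 ⟨hp'.1, fun a ha => (mem_filter.1 (hT ha)).2⟩
    have h1 : (Q₁.card : ℝ) ≤ ∑ T ∈ powersetCard j G,
        ((Q.filter (fun p : ℕ => ∀ a ∈ T, padicValInt p a ≠ padicValInt p g)).card : ℝ) := by
      have := (card_le_card hsub).trans card_biUnion_le
      exact_mod_cast this
    have h2 : ∀ T ∈ powersetCard j G,
        ((Q.filter (fun p : ℕ => ∀ a ∈ T, padicValInt p a ≠ padicValInt p g)).card : ℝ) ≤ r := by
      intro T hT
      have hT' := mem_powersetCard.1 hT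
      by_contra hlt
      push Not at hlt
      exact hbad ⟨T, hT'.1, hT'.2, _, fun p hp =>
        ⟨hQ p (mem_filter.1 hp).1, (mem_filter.1 hp).2⟩, hlt⟩
    have h3 := sum_le_sum h2
    rw [sum_const, card_powersetCard, hG, nsmul_eq_mul] at h3
    exact h1.trans h3
  have hsplit : ∑ p ∈ Q, (nd g G p : ℝ) ≤
      ∑ p ∈ Q, ((if j ≤ nd g G p then (G.card : ℝ) else 0) + j) := by
    apply sum_le_sum
    intro p _
    split_ifs with h
    · have h1 : (nd g G p : ℝ) ≤ G.card := by
        exact_mod_cast card_le_card (filter_subset _ _)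
      have h2 : (0 : ℝ) ≤ j := Nat.cast_nonneg _
      linarith
    · have h1 : (nd g G p : ℝ) ≤ j := by
        push Not at h
        exact_mod_cast h.le
      linarith
  refine hsplit.trans ?_
  rw [sum_add_distrib, ← sum_filter, sum_const, sum_const, nsmul_eq_mul, nsmul_eq_mul, ← hQ₁]
  have hGj : (G.card : ℝ) * (1 / (M : ℝ)) = j := by
    rw [hG]
    push_cast
    field_simp
  have h4 : (0 : ℝ) ≤ (G.card : ℝ) := Nat.cast_nonneg _
  calc (Q₁.card : ℝ) * (G.card : ℝ) + (Q.card : ℝ) * j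
      ≤ (((M * j).choose j : ℝ) * r) * G.card + (Q.card : ℝ) * j := by
        have := mul_le_mul_of_nonneg_right hcard h4
        linarith
    _ = (G.card : ℝ) * (((M * j).choose j : ℝ) * r + 1 / (M : ℝ) * Q.card) := by
        rw [← hGj]
        ring

/-- a maximal light subset, and what is outside -/
theorem exists_maxLight {g : ℤ} {r : ℝ} {M j : ℕ} (A : Finset ℤ) (hM : 1 ≤ M) (hj : 1 ≤ j) :
    ∃ U ⊆ A, Light g (((M * j).choose j : ℝ) * r) (1 / (M : ℝ)) U ∧
      ∀ S ⊆ A \ U, M * j ≤ S.card → Rich g r j S := by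
  classical
  set R : ℝ := ((M * j).choose j : ℝ) * r with hR
  obtain ⟨U, hU, hmax⟩ := exists_max_image
    (A.powerset.filter (fun U => Light g R (1 / (M : ℝ)) U))
    (fun U => U.card) ⟨∅, mem_filter.2 ⟨mem_powerset.2 (empty_subset _), light_empty _ _ _⟩⟩
  have hU' := mem_filter.1 hU
  refine ⟨U, mem_powerset.1 hU'.1, hU'.2, fun S hS hMS => ?_⟩
  by_contra hnr
  obtain ⟨G, hGS, hGc⟩ := exists_subset_card_eq hMS
  have hbad : ¬ Rich g r j G := by
    rintro ⟨T, hT, h⟩
    exact hnr ⟨T, hT.trans hGS, h⟩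
  have hGl := bad_light hM hGc hbad
  have hGA : G ⊆ A \ U := hGS.trans hS
  have hdisj : Disjoint U G :=
    disjoint_of_subset_right hGA disjoint_sdiff
  have hun := light_union hdisj hU'.2 hGl
  have h1 := hmax (U ∪ G) (mem_filter.2 ⟨mem_powerset.2
    (union_subset (mem_powerset.1 hU'.1) (hGA.trans sdiff_subset)), hun⟩)
  rw [card_union_of_disjoint hdisj, hGc] at h1
  have h2 : 0 < M * j := Nat.mul_pos hM hj
  omega

/-- a light set has few popular primes -/
theorem pop_count {g : ℤ} {R C : ℝ} {M : ℕ} {U : Finset ℤ} (hC : 0 < C) (hM : 2 * C ≤ M)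
    (hU : Light g R (1 / (M : ℝ)) U) (hne : U.Nonempty) (P : Finset ℕ)
    (hP : ∀ p ∈ P, p.Prime) (hpop : ∀ p ∈ P, (U.card : ℝ) ≤ C * (nd g U p : ℝ)) :
    (P.card : ℝ) ≤ 2 * C * R := by
  have hUc : (0 : ℝ) < U.card := by exact_mod_cast card_pos.2 hne
  have hM0 : (0 : ℝ) < M := by linarith
  have h1 := hU P hP
  have h2 : (P.card : ℝ) * U.card ≤ C * ∑ p ∈ P, (nd g U p : ℝ) := by
    rw [mul_sum]
    calc (P.card : ℝ) * U.card = ∑ p ∈ P, (U.card : ℝ) := by rw [sum_const, nsmul_eq_mul]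
      _ ≤ ∑ p ∈ P, C * (nd g U p : ℝ) := sum_le_sum hpop
  have h3 : (P.card : ℝ) * U.card ≤ C * (U.card * (R + 1 / (M : ℝ) * P.card)) :=
    h2.trans (mul_le_mul_of_nonneg_left h1 hC.le)
  have h4 : (P.card : ℝ) ≤ C * (R + 1 / (M : ℝ) * P.card) := by
    have : (P.card : ℝ) * U.card ≤ (C * (R + 1 / (M : ℝ) * P.card)) * U.card := by linarith
    exact le_of_mul_le_mul_right this hUc
  have h5 : C * (1 / (M : ℝ)) ≤ 1 / 2 := by
    rw [mul_one_div, div_le_div_iff₀ hM0 (by norm_num)]
    linarith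
  have h6 : (0 : ℝ) ≤ P.card := Nat.cast_nonneg _
  nlinarith

open Classical in
/-- the popular primes -/
noncomputable def popP (g : ℤ) (C : ℝ) (U : Finset ℤ) : Finset ℕ :=
  (g.natAbs.primeFactors ∪ U.biUnion (fun a => a.natAbs.primeFactors)).filter
    (fun p => (U.card : ℝ) ≤ C * (nd g U p : ℝ))

theorem popP_prime {g : ℤ} {C : ℝ} {U : Finset ℤ} : ∀ p ∈ popP g C U, p.Prime := by
  classical
  intro p hp
  unfold popP at hp
  rcases mem_union.1 (mem_filter.1 hp).1 with h | h
  · exact Nat.prime_of_mem_primeFactors h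
  · obtain ⟨a, _, ha⟩ := mem_biUnion.1 h
    exact Nat.prime_of_mem_primeFactors ha

theorem popP_pop {g : ℤ} {C : ℝ} {U : Finset ℤ} :
    ∀ p ∈ popP g C U, (U.card : ℝ) ≤ C * (nd g U p : ℝ) := by
  classical
  intro p hp
  unfold popP at hp
  exact (mem_filter.1 hp).2

theorem unpop_popP {g : ℤ} {C : ℝ} {U : Finset ℤ} (hC : 0 < C) {p : ℕ} (hp : p.Prime)
    (hpP : p ∉ popP g C U) : (nd g U p : ℝ) ≤ 1 / C * U.card := by
  classical
  by_cases hm : p ∈ g.natAbs.primeFactors ∪ U.biUnion (fun a => a.natAbs.primeFactors)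
  · have h1 : ¬ (U.card : ℝ) ≤ C * (nd g U p : ℝ) := by
      intro h
      apply hpP
      unfold popP
      exact mem_filter.2 ⟨hm, h⟩
    push Not at h1
    rw [one_div, inv_mul_eq_div, le_div_iff₀ hC]
    linarith
  · have h0 : nd g U p = 0 := by
      unfold nd
      rw [card_eq_zero, filter_eq_empty_iff]
      intro a ha hne
      apply hne
      have hz : ∀ b : ℤ, p ∉ b.natAbs.primeFactors → padicValInt p b = 0 := by
        intro b hb
        rw [padicValInt]
        rcases eq_or_ne b.natAbs 0 with h | h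
        · rw [h]
          simp
        · apply padicValNat.eq_zero_of_not_dvd
          intro hd
          exact hb (Nat.mem_primeFactors.2 ⟨hp, hd, h⟩)
      have hg' : p ∉ g.natAbs.primeFactors := fun h => hm (mem_union_left _ h)
      have ha' : p ∉ a.natAbs.primeFactors := fun h =>
        hm (mem_union_right _ (mem_biUnion.2 ⟨a, ha, h⟩))
      rw [hz g hg', hz a ha']
    rw [h0]
    simp only [CharP.cast_eq_zero]
    positivity

end Pool.Agent.Helper24.PP
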